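import Pool.Agent.Helper26.LU.Goals

/-!
# LU, packet D3: the main equation
-/

namespace Pool.Agent.Helper16.LU

open MeasureTheory Matrix Real Filter Topology
open Pool.Agent.Helper26.LU

/-- The rotated frame identity. -/
theorem frame_rot {R : M3} (hR : R ∈ SO3) (x : V) :
    ∑ j, ((R *ᵥ e j) ⬝ᵥ x) • (R *ᵥ e j) = (4 / 3 : ℝ) • x := by
  have h1 := e_frame (Rᵀ *ᵥ x)
  have h2 : ∀ j, (R *ᵥ e j) ⬝ᵥ x = (Rᵀ *ᵥ x) ⬝ᵥ e j := by
    intro j
    have h3 : R *ᵥ (Rᵀ *ᵥ x) = x := by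
      rw [Matrix.mulVec_mulVec, ((mem_SO3 R).1 hR).1, Matrix.one_mulVec]
    calc (R *ᵥ e j) ⬝ᵥ x = (R *ᵥ e j) ⬝ᵥ (R *ᵥ (Rᵀ *ᵥ x)) := by rw [h3]
      _ = e j ⬝ᵥ (Rᵀ *ᵥ x) := dot_mulVec hR _ _
      _ = (Rᵀ *ᵥ x) ⬝ᵥ e j := dotProduct_comm _ _
  have h4 : R *ᵥ (∑ j, ((Rᵀ *ᵥ x) ⬝ᵥ e j) • e j) = R *ᵥ ((4 / 3 : ℝ) • (Rᵀ *ᵥ x)) := by
    rw [h1]
  rw [Matrix.mulVec_smul, Matrix.mulVec_mulVec, ((mem_SO3 R).1 hR).1, Matrix.one_mulVec] at h4
  rw [← h4, Matrix.mulVec_sum]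
  apply Finset.sum_congr rfl
  intro j _
  rw [h2 j, Matrix.mulVec_smul]

theorem sum_rot (R : M3) : ∑ j, R *ᵥ e j = 0 := by
  rw [← Matrix.mulVec_sum, e_sum, Matrix.mulVec_zero]

theorem sum_dot (R : M3) (t : V) : ∑ j, (R *ᵥ e j) ⬝ᵥ t = 0 := by
  rw [← sum_dotProduct, sum_rot, zero_dotProduct]

theorem sum_dot_sq {R : M3} (hR : R ∈ SO3) (t : V) :
    ∑ j, ((R *ᵥ e j) ⬝ᵥ t) ^ 2 = 4 / 3 * (t ⬝ᵥ t) := by
  have h := congrArg (fun v : V => v ⬝ᵥ t) (frame_rot hR t)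
  simp only [sum_dotProduct, smul_dotProduct, smul_eq_mul] at h
  rw [← h]
  apply Finset.sum_congr rfl
  intro j _
  ring

/-- Values of the four functions. -/
theorem f_vec {R : M3} (hR : R ∈ SO3) (t : V) (f : Fin 4 → ℝ)
    (hf : ∀ j, f j = 2 * ((R *ᵥ e j) ⬝ᵥ t) + t ⬝ᵥ t) :
    t = (3 / 8 : ℝ) • ∑ j, f j • (R *ᵥ e j) := by
  have h1 : ∑ j, f j • (R *ᵥ e j)
      = (2 : ℝ) • ∑ j, ((R *ᵥ e j) ⬝ᵥ t) • (R *ᵥ e j) + (t ⬝ᵥ t) • ∑ j, R *ᵥ e j := by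
    rw [Finset.smul_sum, Finset.smul_sum, ← Finset.sum_add_distrib]
    apply Finset.sum_congr rfl
    intro j _
    rw [hf j, smul_smul, ← add_smul]
  rw [h1, frame_rot hR, sum_rot, smul_zero, add_zero, smul_smul, smul_smul]
  norm_num

theorem f_sum {R : M3} (hR : R ∈ SO3) (t : V) (f : Fin 4 → ℝ)
    (hf : ∀ j, f j = 2 * ((R *ᵥ e j) ⬝ᵥ t) + t ⬝ᵥ t) :
    ∑ j, f j = 3 / 16 * (4 * ∑ j, f j ^ 2 - (∑ j, f j) ^ 2) := by
  have h0 := sum_dot R t
  have h1 := sum_dot_sq hR t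
  simp only [Fin.sum_univ_four] at h0 h1 ⊢
  rw [hf 0, hf 1, hf 2, hf 3]
  set s0 := (R *ᵥ e 0) ⬝ᵥ t
  set s1 := (R *ᵥ e 1) ⬝ᵥ t
  set s2 := (R *ᵥ e 2) ⬝ᵥ t
  set s3 := (R *ᵥ e 3) ⬝ᵥ t
  set τ := t ⬝ᵥ t
  have e3 : s3 = -(s0 + s1 + s2) := by linarith
  rw [e3] at h1 ⊢
  linear_combination (-3) * h1

/-- The iteration approaches the translation vector. -/
theorem t_near (N k : ℕ) : ∃ C : ℝ, 0 < C ∧ ∀ R ∈ SO3, ∀ (t : V) (a : Idx N → ℝ)
    (f : Fin 4 → ℝ) (E : ℝ), ‖a‖ ≤ 1 → 0 ≤ E → (∀ j, ‖R *ᵥ e j + t‖ ≤ 2) →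
    t = (3 / 8 : ℝ) • ∑ j, f j • (R *ᵥ e j) → (∀ j, |f j - ev a (R *ᵥ e j + t)| ≤ E) →
    ‖t - Ti a R k‖ ≤ C * (‖a‖ ^ k + E) := by
  induction k with
  | zero =>
    refine ⟨3, by norm_num, ?_⟩
    intro R hR t a f E ha hE hx ht hf
    have h1 : ‖t‖ ≤ 3 := by
      have h2 : t = (R *ᵥ e 0 + t) - R *ᵥ e 0 := by abel
      rw [h2]
      refine (norm_sub_le _ _).trans ?_
      have := hx 0
      have := norm_mulVec_e hR 0
      linarith
    simp only [Ti, sub_zero, pow_zero]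
    linarith
  | succ k ih =>
    obtain ⟨C, hC, h⟩ := ih
    obtain ⟨C', hC', h'⟩ := Ti_bound N k
    set B : ℝ := 2 + C' with hB
    set K : ℝ := Fintype.card (Idx N) * (3 * (N : ℝ) * B ^ (3 * N)) with hK
    have hK0 : 0 ≤ K := by positivity
    refine ⟨3 / 2 * (K * C + 1), by positivity, ?_⟩
    intro R hR t a f E ha hE hx ht hf
    have ha0 := norm_nonneg a
    have hd := h R hR t a f E ha hE hx ht hf
    have hT : ‖Ti a R k‖ ≤ C' := (h' a ha R hR).trans (by nlinarith)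
    have hj : ∀ j, |f j - ev a (R *ᵥ e j + Ti a R k)| ≤ E + K * ‖a‖ * ‖t - Ti a R k‖ := by
      intro j
      have e1 := ev_lip a (x := R *ᵥ e j + t) (y := R *ᵥ e j + Ti a R k) (B := B)
        (by linarith) ((hx j).trans (by linarith))
        ((norm_add_le _ _).trans (by have := norm_mulVec_e hR j; linarith))
      rw [add_sub_add_left_eq_sub] at e1
      have e2 : f j - ev a (R *ᵥ e j + Ti a R k) = (f j - ev a (R *ᵥ e j + t))
          + (ev a (R *ᵥ e j + t) - ev a (R *ᵥ e j + Ti a R k)) := by ring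
      rw [e2]
      exact (abs_add_le _ _).trans (add_le_add (hf j) e1)
    have key : t - Ti a R (k + 1)
        = (3 / 8 : ℝ) • ∑ j, (f j - ev a (R *ᵥ e j + Ti a R k)) • (R *ᵥ e j) := by
      rw [Ti_succ]
      nth_rewrite 1 [ht]
      rw [← smul_sub, ← Finset.sum_sub_distrib]
      congr 1
      apply Finset.sum_congr rfl
      intro j _
      rw [sub_smul]
    have hs : ‖∑ j, (f j - ev a (R *ᵥ e j + Ti a R k)) • (R *ᵥ e j)‖
        ≤ 4 * (E + K * ‖a‖ * ‖t - Ti a R k‖) := by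
      refine (norm_sum_le _ _).trans ?_
      calc ∑ j, ‖(f j - ev a (R *ᵥ e j + Ti a R k)) • (R *ᵥ e j)‖
          ≤ ∑ _j : Fin 4, (E + K * ‖a‖ * ‖t - Ti a R k‖) := by
            apply Finset.sum_le_sum
            intro j _
            rw [norm_smul, Real.norm_eq_abs]
            have h0 : 0 ≤ E + K * ‖a‖ * ‖t - Ti a R k‖ := by positivity
            have := mul_le_mul (hj j) (norm_mulVec_e hR j) (norm_nonneg _) h0
            simpa using this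
        _ = _ := by
          rw [Finset.sum_const, Finset.card_univ, Fintype.card_fin, nsmul_eq_mul]
          norm_num
    rw [key, norm_smul, Real.norm_eq_abs, abs_of_pos (by norm_num : (0 : ℝ) < 3 / 8)]
    have h5 : K * ‖a‖ * ‖t - Ti a R k‖ ≤ K * ‖a‖ * (C * (‖a‖ ^ k + E)) :=
      mul_le_mul_of_nonneg_left hd (by positivity)
    have h6 : K * ‖a‖ * (C * (‖a‖ ^ k + E)) ≤ K * C * (‖a‖ ^ (k + 1) + E) := by
      have h7 : ‖a‖ * E ≤ E := by nlinarith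
      have h8 : K * ‖a‖ * (C * (‖a‖ ^ k + E)) = K * C * (‖a‖ ^ (k + 1) + ‖a‖ * E) := by ring
      rw [h8]
      have h9 : 0 ≤ K * C := by positivity
      nlinarith
    have h10 : 0 ≤ ‖a‖ ^ (k + 1) := by positivity
    nlinarith

theorem abs_q_sub {f F : Fin 4 → ℝ} {η b : ℝ} (h1 : ∀ j, |f j - F j| ≤ η)
    (h2 : ∀ j, |f j + F j| ≤ b) (hη : 0 ≤ η) :
    |3 / 16 * (4 * ∑ j, f j ^ 2 - (∑ j, f j) ^ 2)
      - 3 / 16 * (4 * ∑ j, F j ^ 2 - (∑ j, F j) ^ 2)| ≤ 6 * (η * b) := by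
  have e1 : |∑ j, f j ^ 2 - ∑ j, F j ^ 2| ≤ 4 * (η * b) := by
    rw [← Finset.sum_sub_distrib]
    refine (Finset.abs_sum_le_sum_abs _ _).trans ?_
    calc ∑ j, |f j ^ 2 - F j ^ 2| ≤ ∑ _j : Fin 4, η * b := by
          apply Finset.sum_le_sum
          intro j _
          have : f j ^ 2 - F j ^ 2 = (f j - F j) * (f j + F j) := by ring
          rw [this, abs_mul]
          exact mul_le_mul (h1 j) (h2 j) (abs_nonneg _) hη
      _ = _ := by simp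
  have e2 : |∑ j, f j - ∑ j, F j| ≤ 4 * η := by
    rw [← Finset.sum_sub_distrib]
    refine (Finset.abs_sum_le_sum_abs _ _).trans ?_
    calc ∑ j, |f j - F j| ≤ ∑ _j : Fin 4, η := Finset.sum_le_sum fun j _ => h1 j
      _ = _ := by simp
  have e3 : |∑ j, f j + ∑ j, F j| ≤ 4 * b := by
    rw [← Finset.sum_add_distrib]
    refine (Finset.abs_sum_le_sum_abs _ _).trans ?_
    calc ∑ j, |f j + F j| ≤ ∑ _j : Fin 4, b := Finset.sum_le_sum fun j _ => h2 j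
      _ = _ := by simp
  have e4 : |(∑ j, f j) ^ 2 - (∑ j, F j) ^ 2| ≤ 16 * (η * b) := by
    have : (∑ j, f j) ^ 2 - (∑ j, F j) ^ 2
        = (∑ j, f j - ∑ j, F j) * (∑ j, f j + ∑ j, F j) := by ring
    rw [this, abs_mul]
    have := mul_le_mul e2 e3 (abs_nonneg _) (by positivity)
    linarith
  have e5 : 3 / 16 * (4 * ∑ j, f j ^ 2 - (∑ j, f j) ^ 2)
      - 3 / 16 * (4 * ∑ j, F j ^ 2 - (∑ j, F j) ^ 2)
      = 3 / 16 * (4 * (∑ j, f j ^ 2 - ∑ j, F j ^ 2) - ((∑ j, f j) ^ 2 - (∑ j, F j) ^ 2)) := by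
    ring
  rw [e5, abs_mul, abs_of_pos (by norm_num : (0 : ℝ) < 3 / 16)]
  have e6 := abs_sub (4 * (∑ j, f j ^ 2 - ∑ j, F j ^ 2)) ((∑ j, f j) ^ 2 - (∑ j, F j) ^ 2)
  rw [abs_mul, abs_of_pos (by norm_num : (0 : ℝ) < 4)] at e6
  linarith

/-- **D3.** The main equation. -/
theorem gD3 : G_D3 := by
  intro N M
  obtain ⟨C₁, hC₁, hTb⟩ := Ti_bound N M
  obtain ⟨C₂, hC₂, hnear⟩ := t_near N M
  obtain ⟨C₃, hC₃, δ, hδ, hyv⟩ := yv_near N M
  set B : ℝ := 2 + C₁ with hB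
  set K : ℝ := Fintype.card (Idx N) * (3 * (N : ℝ) * B ^ (3 * N)) with hK
  set K' : ℝ := Fintype.card (Idx N) * B ^ N with hK'
  have hK0 : 0 ≤ K := by positivity
  have hK'0 : 0 ≤ K' := by positivity
  refine ⟨32 * C₂ + 4 * K * C₂ + 6 * K * (1 + K') * C₂ + 6 * (1 + K'), by positivity,
    min (1 / 2) δ, by positivity, ?_⟩
  intro S r ε κ hS hε0 hε a E κe ha hE hE1 hκ0 hκ1 hlip R hR
  have hε2 : ε ≤ 1 / 2 := hε.trans (min_le_left _ _)
  have ha2 : ‖a‖ ≤ 1 / 2 := ha.trans (min_le_left _ _)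
  have ha1 : ‖a‖ ≤ 1 := by linarith
  have haδ : ‖a‖ ≤ δ := ha.trans (min_le_right _ _)
  have ha0 := norm_nonneg a
  have hE0 : 0 ≤ E := (abs_nonneg _).trans (hE (e 0) (e_sph 0))
  obtain ⟨t, ht⟩ := hS.adm R hR
  -- the vertices
  set x : Fin 4 → V := fun j => R *ᵥ e j + t with hx
  have hxS : ∀ j, x j ∈ S := ht
  have hx0 : ∀ j, x j ≠ 0 := fun j => (hS.onS _ (hxS j)).1
  have hxr : ∀ j, x j = r (proj (x j)) • proj (x j) := fun j => (hS.onS _ (hxS j)).2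
  have hu : ∀ j, proj (x j) ∈ sph := fun j => proj_sph (hx0 j)
  have hrpos : ∀ j, 0 < r (proj (x j)) := fun j => (hS.pos _ (hu j)).1
  have hbd : ∀ j, |r (proj (x j)) ^ 2 - 1| ≤ ε := fun j => hS.bd _ (hu j)
  have hdot : ∀ j, x j ⬝ᵥ x j = r (proj (x j)) ^ 2 := by
    intro j
    have h1 : proj (x j) ⬝ᵥ proj (x j) = 1 := hu j
    have h2 : x j ⬝ᵥ x j = (r (proj (x j)) • proj (x j)) ⬝ᵥ (r (proj (x j)) • proj (x j)) := by
      rw [← hxr j]
    rw [h2, smul_dotProduct, dotProduct_smul, h1, smul_eq_mul, smul_eq_mul]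
    ring
  set f : Fin 4 → ℝ := fun j => x j ⬝ᵥ x j - 1 with hf
  have hfb : ∀ j, |f j| ≤ ε := by
    intro j
    simp only [hf]
    rw [hdot j]
    exact hbd j
  have hfe : ∀ j, f j = 2 * ((R *ᵥ e j) ⬝ᵥ t) + t ⬝ᵥ t := by
    intro j
    have h1 : (R *ᵥ e j) ⬝ᵥ (R *ᵥ e j) = 1 := mulVec_sph hR (e_sph j)
    simp only [hf, hx]
    rw [dotProduct_add, add_dotProduct, add_dotProduct, h1, dotProduct_comm t (R *ᵥ e j)]
    ring
  have hnx : ∀ j, nrm (x j) ^ 2 = 1 + f j := by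
    intro j
    rw [nrm_sq]
    simp only [hf]
    ring
  have hnx1 : ∀ j, 1 / 2 ≤ nrm (x j) := by
    intro j
    have h1 := (abs_le.1 (hfb j)).1
    have h2 := hnx j
    have h3 := nrm_nonneg (x j)
    nlinarith
  have hnx2 : ∀ j, nrm (x j) ≤ 2 := by
    intro j
    have h1 := (abs_le.1 (hfb j)).2
    have h2 := hnx j
    have h3 := nrm_nonneg (x j)
    nlinarith
  have hx2 : ∀ j, ‖R *ᵥ e j + t‖ ≤ 2 := fun j => (norm_le_nrm _).trans (hnx2 j)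
  -- the remainder
  set g : V → ℝ := res r a with hg
  have hfg : ∀ j, f j = ev a (x j) + g (proj (x j)) := by
    intro j
    simp only [hg, res]
    rw [← hxr j]
    simp only [hf]
    rw [hdot j]
    ring
  have hres : ∀ j, |f j - ev a (R *ᵥ e j + t)| ≤ E := by
    intro j
    have h1 : f j - ev a (R *ᵥ e j + t) = g (proj (x j)) := by
      rw [hfg j]
      simp only [hx]
      ring
    rw [h1]
    exact hE _ (hu j)
  have htf := f_vec hR t f hfe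
  have hd := hnear R hR t a f E ha1 hE0 hx2 htf hres
  set d : ℝ := ‖t - Ti a R M‖ with hdd
  have hd0 : 0 ≤ d := norm_nonneg _
  have hT : ‖Ti a R M‖ ≤ C₁ := (hTb a ha1 R hR).trans (by nlinarith)
  -- the approximate values
  have hF : ∀ j, Fv M a R j = ev a (yv M a R j) := fun j => rfl
  have hyn : ∀ j, ‖yv M a R j‖ ≤ B := by
    intro j
    refine (norm_add_le _ _).trans ?_
    have := norm_mulVec_e hR j
    linarith
  have hxy : ∀ j, x j - yv M a R j = t - Ti a R M := by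
    intro j
    simp only [hx, yv]
    abel
  have hev : ∀ j, |ev a (x j) - ev a (yv M a R j)| ≤ K * ‖a‖ * d := by
    intro j
    have h1 := ev_lip a (x := x j) (y := yv M a R j) (B := B) (by linarith)
      ((hx2 j).trans (by linarith)) (hyn j)
    rw [hxy j] at h1
    exact h1
  have hFb : ∀ j, |Fv M a R j| ≤ K' * ‖a‖ := by
    intro j
    rw [hF j]
    exact ev_bound a (by linarith) (hyn j)
  have hgy : ∀ j, |g (proj (x j)) - g (yh M a R j)| ≤ 8 * κe * d := by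
    intro j
    obtain ⟨-, h2, h3, -⟩ := hyv a haδ R hR j
    have h4 := hlip (proj (x j)) (hu j) (yh M a R j) h3
    have h5 := proj_lip (x := x j) (y := yv M a R j) (hnx1 j) (by linarith)
    rw [hxy j] at h5
    have h6 : ‖proj (x j) - yh M a R j‖ ≤ 8 * d := by
      refine (norm_le_nrm _).trans (h5.trans ?_)
      have := nrm_le_norm (t - Ti a R M)
      linarith
    have h7 := mul_le_mul_of_nonneg_left h6 hκ0
    calc |g (proj (x j)) - g (yh M a R j)| ≤ κe * ‖proj (x j) - yh M a R j‖ := h4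
      _ ≤ κe * (8 * d) := h7
      _ = 8 * κe * d := by ring
  have hfF : ∀ j, |f j - Fv M a R j| ≤ K * ‖a‖ * d + E := by
    intro j
    have h1 : f j - Fv M a R j = (ev a (x j) - ev a (yv M a R j)) + g (proj (x j)) := by
      rw [hfg j, hF j]
      ring
    rw [h1]
    exact (abs_add_le _ _).trans (add_le_add (hev j) (hE _ (hu j)))
  have hfF2 : ∀ j, |f j + Fv M a R j| ≤ ε + K' * ‖a‖ := fun j =>
    (abs_add_le _ _).trans (add_le_add (hfb j) (hFb j))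
  have hq := abs_q_sub (f := f) (F := fun j => Fv M a R j) hfF hfF2 (by positivity)
  have hfs := f_sum hR t f hfe
  -- sums
  have s1 : |∑ j, (g (yh M a R j) - g (proj (x j)))| ≤ 4 * (8 * κe * d) := by
    refine (Finset.abs_sum_le_sum_abs _ _).trans ?_
    calc ∑ j, |g (yh M a R j) - g (proj (x j))| ≤ ∑ _j : Fin 4, 8 * κe * d := by
          apply Finset.sum_le_sum
          intro j _
          rw [abs_sub_comm]
          exact hgy j
      _ = _ := by simp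
  have s2 : |∑ j, (ev a (yv M a R j) - ev a (x j))| ≤ 4 * (K * ‖a‖ * d) := by
    refine (Finset.abs_sum_le_sum_abs _ _).trans ?_
    calc ∑ j, |ev a (yv M a R j) - ev a (x j)| ≤ ∑ _j : Fin 4, K * ‖a‖ * d := by
          apply Finset.sum_le_sum
          intro j _
          rw [abs_sub_comm]
          exact hev j
      _ = _ := by simp
  have hPh : Ph M a R = ∑ j, Fv M a R j
      - 3 / 16 * (4 * ∑ j, Fv M a R j ^ 2 - (∑ j, Fv M a R j) ^ 2) := rfl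
  have hsum : ∑ j, f j = ∑ j, ev a (x j) + ∑ j, g (proj (x j)) := by
    rw [← Finset.sum_add_distrib]
    exact Finset.sum_congr rfl fun j _ => hfg j
  have hsF : ∑ j, Fv M a R j = ∑ j, ev a (yv M a R j) := Finset.sum_congr rfl fun j _ => hF j
  have key : ∑ j, g (yh M a R j) + Ph M a R
      = ∑ j, (g (yh M a R j) - g (proj (x j))) + ∑ j, (ev a (yv M a R j) - ev a (x j))
        + (3 / 16 * (4 * ∑ j, f j ^ 2 - (∑ j, f j) ^ 2)
          - 3 / 16 * (4 * ∑ j, Fv M a R j ^ 2 - (∑ j, Fv M a R j) ^ 2)) := by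
    rw [← hfs, hPh, Finset.sum_sub_distrib, Finset.sum_sub_distrib, hsum, hsF]
    ring
  rw [key]
  refine (abs_add_le _ _).trans ?_
  refine (add_le_add (abs_add_le _ _) hq).trans ?_
  -- final estimate
  set p : ℝ := ‖a‖ ^ M with hp
  have hp0 : 0 ≤ p := by positivity
  have b1 : κe * d ≤ C₂ * p + C₂ * (κe * E) := by
    have h1 : κe * d ≤ κe * (C₂ * (p + E)) := mul_le_mul_of_nonneg_left hd hκ0
    have h2 : κe * (C₂ * p) ≤ 1 * (C₂ * p) := mul_le_mul_of_nonneg_right hκ1 (by positivity)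
    nlinarith
  have b2 : ‖a‖ * d ≤ C₂ * p + C₂ * (‖a‖ * E) := by
    have h1 : ‖a‖ * d ≤ ‖a‖ * (C₂ * (p + E)) := mul_le_mul_of_nonneg_left hd ha0
    have h2 : ‖a‖ * (C₂ * p) ≤ 1 * (C₂ * p) := mul_le_mul_of_nonneg_right ha1 (by positivity)
    nlinarith
  have b3 : ε + K' * ‖a‖ ≤ 1 + K' := by nlinarith
  have b4 : (K * ‖a‖ * d + E) * (ε + K' * ‖a‖)
      ≤ K * (1 + K') * (‖a‖ * d) + (1 + K') * ((ε + ‖a‖) * E) := by
    have h1 : K * ‖a‖ * d * (ε + K' * ‖a‖) ≤ K * ‖a‖ * d * (1 + K') :=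
      mul_le_mul_of_nonneg_left b3 (by positivity)
    have h2 : E * (ε + K' * ‖a‖) ≤ E * ((1 + K') * (ε + ‖a‖)) := by
      apply mul_le_mul_of_nonneg_left _ hE0
      nlinarith [mul_nonneg hK'0 hε0]
    nlinarith
  have b5 : K * (‖a‖ * d) ≤ K * (C₂ * p + C₂ * (‖a‖ * E)) := mul_le_mul_of_nonneg_left b2 hK0
  have b6 : K * (1 + K') * (‖a‖ * d) ≤ K * (1 + K') * (C₂ * p + C₂ * (‖a‖ * E)) :=
    mul_le_mul_of_nonneg_left b2 (by positivity)
  have c1 : 0 ≤ κe * E := by positivity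
  have c2 : 0 ≤ ‖a‖ * E := by positivity
  have c3 : 0 ≤ ε * E := by positivity
  have t1 : 4 * (8 * κe * d) ≤ 32 * C₂ * (κe + ‖a‖ + ε) * E + 32 * C₂ * p := by
    nlinarith [mul_nonneg hC₂.le c2, mul_nonneg hC₂.le c3]
  have t2 : 4 * (K * ‖a‖ * d) ≤ 4 * K * C₂ * (κe + ‖a‖ + ε) * E + 4 * K * C₂ * p := by
    nlinarith [mul_nonneg (mul_nonneg hK0 hC₂.le) c1, mul_nonneg (mul_nonneg hK0 hC₂.le) c3]
  have hKK : 0 ≤ K * (1 + K') * C₂ := by positivity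
  have t3 : 6 * ((K * ‖a‖ * d + E) * (ε + K' * ‖a‖))
      ≤ 6 * K * (1 + K') * C₂ * (κe + ‖a‖ + ε) * E + 6 * K * (1 + K') * C₂ * p
        + 6 * (1 + K') * (κe + ‖a‖ + ε) * E := by
    nlinarith [mul_nonneg hKK c1, mul_nonneg hKK c3, mul_nonneg hK'0 c1]
  have t4 : 0 ≤ 6 * (1 + K') * p := by positivity
  nlinarith

end Pool.Agent.Helper16.LU
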